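import Pool.Agent.helper56.NZ.Spec
import Pool.Agent.helper19.HY.DST

set_option autoImplicit false

open Complex Metric Set Filter Topology MeasureTheory
open Pool.Agent.helper98.ILF Pool.Agent.helper16.Multibrot
open HY (UD T S hd UN RM VV SG Orb fz)

noncomputable section

namespace NZ

/-- the number `2√τ/(1+τ)` lies strictly between `0` and `1`. -/
theorem PIK_r0 {τ : ℝ} (h0 : 0 < τ) (h1 : τ < 1) :
    0 < 2 * Real.sqrt τ / (1 + τ) ∧ 2 * Real.sqrt τ / (1 + τ) < 1 := by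
  have hs0 : 0 < Real.sqrt τ := Real.sqrt_pos.2 h0
  have hs1 : Real.sqrt τ < 1 := by
    rw [show (1 : ℝ) = Real.sqrt 1 from Real.sqrt_one.symm]
    exact Real.sqrt_lt_sqrt h0.le h1
  have hsq : Real.sqrt τ * Real.sqrt τ = τ := Real.mul_self_sqrt h0.le
  refine ⟨by positivity, ?_⟩
  rw [div_lt_one (by positivity)]
  nlinarith [mul_pos (sub_pos.2 hs1) (sub_pos.2 hs1)]

theorem PIK (hO : EX.OM0_stmt) (hK : V3.KO0_stmt) : PIK_stmt := by
  intro τ₁ hτ0 hτ1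
  set τ₂ : ℝ := (1 + τ₁) / 2 with hτ2
  have h20 : 0 < τ₂ := by rw [hτ2]; linarith
  have h21 : τ₂ < 1 := by rw [hτ2]; linarith
  have h12 : τ₁ < τ₂ := by rw [hτ2]; linarith
  obtain ⟨hr0, hr1⟩ := PIK_r0 h20 h21
  set r₀ : ℝ := 2 * Real.sqrt τ₂ / (1 + τ₂) with hr
  have hlog : Real.log r₀ < 0 := Real.log_neg hr0 hr1
  refine ⟨-Real.log r₀ / 2, by linarith, τ₁ / τ₂, (div_lt_one h20).2 h12, ?_⟩
  intro σ hσ hσ0 hd0 p hp
  have hbig : r₀ < ‖deriv σ 0‖ := by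
    refine lt_of_lt_of_le ?_ hd0
    calc r₀ = Real.exp (Real.log r₀) := (Real.exp_log hr0).symm
      _ < Real.exp (-(-Real.log r₀ / 2)) := Real.exp_lt_exp.2 (by linarith)
  have hcov : ∀ b : ℂ, ‖b‖ ≤ τ₂ → b ∈ σ '' UD := by
    intro b hb
    by_contra hnb
    have := hO τ₂ σ b h20.le h21 hσ.dif hσ.map hσ0 hb hnb
    exact absurd this (not_le.2 hbig)
  have hRM : RM (σ '' UD) 0 σ := ⟨hσ.dif, hσ.inj, rfl, hσ0⟩
  obtain ⟨χ, hχ1, hχ2, hχd⟩ := HY.DST_inv hK hRM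
  have hsub : ball (0 : ℂ) τ₂ ⊆ σ '' UD := by
    intro b hb
    rw [mem_ball_zero_iff] at hb
    exact hcov b hb.le
  have hχ0 : χ 0 = 0 := by
    have := hχ2 0 (by simp [UD])
    rwa [hσ0] at this
  have hmaps : MapsTo χ (ball (0 : ℂ) τ₂) (closedBall (χ 0) 1) := by
    intro b hb
    have h := (hχ1 b (hsub hb)).1
    rw [hχ0]
    exact ball_subset_closedBall h
  have hpb : p ∈ ball (0 : ℂ) τ₂ := by
    rw [mem_ball_zero_iff]; exact lt_of_le_of_lt hp h12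
  have hsch := Complex.dist_le_div_mul_dist_of_mapsTo_ball (hχd.mono hsub) hmaps hpb
  rw [hχ0, dist_zero_right, dist_zero_right] at hsch
  obtain ⟨hm, he⟩ := hχ1 p (hsub hpb)
  refine ⟨χ p, ?_, hm, he⟩
  calc ‖χ p‖ ≤ 1 / τ₂ * ‖p‖ := hsch
    _ ≤ 1 / τ₂ * τ₁ := by gcongr
    _ = τ₁ / τ₂ := by ring

end NZ
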